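import Pool.Agent.W845.HC.Base

set_option autoImplicit false
open scoped Classical
open Filter Topology
open scoped BigOperators

namespace Pool.Agent.W933.HC

open Pool.Agent.W845.PM Pool.Agent.W845.HC

noncomputable section

/-- The edges of `H` with at least one orientation leaving `X` on the left and `Y` on the right. -/
def Hz {V : Type} (H : SimpleGraph V) (X Y : Finset V) : SimpleGraph V where
  Adj u v := H.Adj u v ∧ ((u ∉ X ∧ v ∉ Y) ∨ (v ∉ X ∧ u ∉ Y))
  symm := ⟨fun _ _ h => ⟨h.1.symm, h.2.symm⟩⟩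
  loopless := ⟨fun a h => H.loopless.irrefl a h.1⟩

lemma arcs_le {V : Type} [Fintype V] (H : SimpleGraph V) (X Y : Finset V) :
    arcs H X Y ≤ 2 * ec (Hz H X Y) := by
  unfold arcs ec
  set A := (Finset.univ.filter (fun e : V × V => e.1 ∉ X ∧ e.2 ∉ Y ∧ H.Adj e.1 e.2)) with hA
  have h1 : A.card ≤ 2 * (A.image (fun e : V × V => s(e.1, e.2))).card := by
    refine Finset.card_le_mul_card_image A 2 (fun z hz => ?_)
    rw [Finset.mem_image] at hz
    obtain ⟨a, -, rfl⟩ := hz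
    have : A.filter (fun e : V × V => s(e.1, e.2) = s(a.1, a.2)) ⊆ {a, (a.2, a.1)} := by
      intro e he
      rw [Finset.mem_filter] at he
      rw [Finset.mem_insert, Finset.mem_singleton]
      rcases Sym2.eq_iff.1 he.2 with ⟨h, h'⟩ | ⟨h, h'⟩
      · exact Or.inl (Prod.ext h h')
      · exact Or.inr (Prod.ext h h')
    exact (Finset.card_le_card this).trans Finset.card_le_two
  have h2 : (A.image (fun e : V × V => s(e.1, e.2))).card ≤ (Hz H X Y).edgeSet.ncard := by
    rw [← Set.ncard_coe_finset]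
    refine Set.ncard_le_ncard ?_ (Set.toFinite _)
    intro z hz
    rw [Finset.mem_coe, Finset.mem_image] at hz
    obtain ⟨a, ha, rfl⟩ := hz
    rw [hA, Finset.mem_filter] at ha
    exact ⟨ha.2.2.2, Or.inl ⟨ha.2.1, ha.2.2.1⟩⟩
  omega

lemma ec_le' {V : Type} [Fintype V] (K M : SimpleGraph V) (X Y : Finset V)
    (h : ∀ u v, M.Adj u v → K.Adj u v ∧ ((u ∉ X ∧ v ∉ Y) ∨ (v ∉ X ∧ u ∉ Y))) :
    ec M ≤ arcs K X Y := by
  unfold arcs ec
  set A := (Finset.univ.filter (fun e : V × V => e.1 ∉ X ∧ e.2 ∉ Y ∧ K.Adj e.1 e.2)) with hA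
  refine le_trans ?_ (Finset.card_image_le (s := A) (f := fun e : V × V => s(e.1, e.2)))
  rw [← Set.ncard_coe_finset]
  refine Set.ncard_le_ncard ?_ (Set.toFinite _)
  intro z
  induction z using Sym2.ind with
  | _ u v =>
    intro hz
    rw [SimpleGraph.mem_edgeSet] at hz
    obtain ⟨h1, h2⟩ := h u v hz
    rw [Finset.mem_coe, Finset.mem_image]
    rcases h2 with h2 | h2
    · exact ⟨(u, v), by rw [hA, Finset.mem_filter]; exact ⟨Finset.mem_univ _, h2.1, h2.2, h1⟩, rfl⟩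
    · exact ⟨(v, u), by
        rw [hA, Finset.mem_filter]; exact ⟨Finset.mem_univ _, h2.1, h2.2, h1.symm⟩, Sym2.eq_swap⟩

lemma ec_le {V : Type} [Fintype V] (H Q : SimpleGraph V) (X Y : Finset V) :
    ec (Hz H X Y ⊓ Q) ≤ arcs (H ⊓ Q) X Y :=
  ec_le' _ _ _ _ fun _ _ h => ⟨⟨h.1.1, h.2⟩, h.1.2⟩

theorem cher (hg : S_GENF) : S_CHER := by
  intro θ hθ
  refine ⟨20 / θ, ⌈20 / θ⌉₊ + 1, by positivity, fun n H hn => ?_⟩
  have hn0 : (0 : ℝ) < n := by
    have : 0 < n := by omega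
    exact_mod_cast this
  have hDn : 20 / θ ≤ n := (Nat.le_ceil _).trans (by exact_mod_cast (by omega : ⌈20 / θ⌉₊ ≤ n))
  have hr1 : 20 / θ / n ≤ 1 := by rw [div_le_one hn0]; exact hDn
  refine ⟨hr1, ?_⟩
  have hr0 : 0 ≤ 20 / θ / n := by positivity
  have hrn : 20 / θ / n * θ * n ^ 2 = 20 * n := by field_simp
  set r : ℝ := 20 / θ / n with hr
  clear_value r
  have hx0 : (0 : ℝ) < Real.exp (-1) := Real.exp_pos _
  have hx1 : Real.exp (-1) ≤ 1 / 2 := by
    rw [Real.exp_neg, inv_eq_one_div]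
    have := Real.add_one_le_exp (1 : ℝ)
    exact one_div_le_one_div_of_le (by norm_num) (by linarith)
  set f : Finset (Fin n) × Finset (Fin n) → SimpleGraph (Fin n) → ℝ := fun P Q =>
    if θ * n ^ 2 ≤ (arcs H P.1 P.2 : ℝ) then
      Real.exp (2 * n) * Real.exp (-1) ^ (ec (Hz H P.1 P.2 ⊓ Q)) else 0 with hf
  have hf0 : ∀ P Q, 0 ≤ f P Q := fun P Q => by
    simp only [hf]
    split_ifs <;> positivity
  have step1 : EG n r (fun Q => if (∀ X Y : Finset (Fin n), θ * n ^ 2 ≤ (arcs H X Y : ℝ) →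
      2 * (n : ℝ) ≤ (arcs (H ⊓ Q) X Y : ℝ)) then (0 : ℝ) else 1) ≤
      EG n r (fun Q => ∑ P : Finset (Fin n) × Finset (Fin n), f P Q) := by
    refine EG_mono hr0 hr1 (fun Q => ?_)
    split_ifs with hc
    · exact Finset.sum_nonneg fun P _ => hf0 P Q
    · push Not at hc
      obtain ⟨X, Y, h1, h2⟩ := hc
      refine le_trans ?_ (Finset.single_le_sum (f := fun P => f P Q) (fun P _ => hf0 P Q)
        (Finset.mem_univ (X, Y)))
      simp only [hf]
      rw [if_pos h1, ← Real.exp_nat_mul, ← Real.exp_add]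
      refine Real.one_le_exp ?_
      have h3 : ((ec (Hz H X Y ⊓ Q) : ℕ) : ℝ) ≤ (arcs (H ⊓ Q) X Y : ℝ) := by
        exact_mod_cast ec_le H Q X Y
      linarith
  have step2 : ∀ P : Finset (Fin n) × Finset (Fin n), EG n r (f P) ≤ Real.exp (-3 * n) := by
    intro P
    simp only [hf]
    split_ifs with hc
    · rw [EG_mul_left, hg n r (Real.exp (-1)) (Hz H P.1 P.2)]
      have h1 : (arcs H P.1 P.2 : ℝ) ≤ 2 * (ec (Hz H P.1 P.2) : ℝ) := by
        exact_mod_cast arcs_le H P.1 P.2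
      have h2 : 1 - r + r * Real.exp (-1) ≤ Real.exp (-(r / 2)) := by
        have := Real.add_one_le_exp (-(r / 2))
        nlinarith
      have h3 : 0 ≤ 1 - r + r * Real.exp (-1) := by
        have : 0 ≤ r * Real.exp (-1) := by positivity
        linarith
      have h4 : (1 - r + r * Real.exp (-1)) ^ (ec (Hz H P.1 P.2)) ≤ Real.exp (-5 * n) := by
        refine (pow_le_pow_left₀ h3 h2 _).trans ?_
        rw [← Real.exp_nat_mul, Real.exp_le_exp]
        have h5 : r * (θ * n ^ 2) ≤ r * (2 * (ec (Hz H P.1 P.2) : ℝ)) :=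
          mul_le_mul_of_nonneg_left (hc.trans h1) hr0
        nlinarith
      calc Real.exp (2 * n) * (1 - r + r * Real.exp (-1)) ^ (ec (Hz H P.1 P.2))
          ≤ Real.exp (2 * n) * Real.exp (-5 * n) :=
            mul_le_mul_of_nonneg_left h4 (Real.exp_pos _).le
        _ = Real.exp (-3 * n) := by rw [← Real.exp_add]; ring_nf
    · rw [EG_const oneT]
      exact (Real.exp_pos _).le
  refine step1.trans ?_
  rw [EG_sum]
  refine (Finset.sum_le_sum fun P _ => step2 P).trans ?_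
  rw [Finset.sum_const, Finset.card_univ, Fintype.card_prod, Fintype.card_finset, Fintype.card_fin,
    nsmul_eq_mul]
  push_cast
  have h2 : (2 : ℝ) ^ n ≤ Real.exp n := by
    have h := Real.add_one_le_exp (1 : ℝ)
    calc (2 : ℝ) ^ n ≤ Real.exp 1 ^ n := pow_le_pow_left₀ (by norm_num) (by linarith) _
      _ = Real.exp n := by rw [← Real.exp_nat_mul, mul_one]
  calc (2 : ℝ) ^ n * 2 ^ n * Real.exp (-3 * n)
      ≤ Real.exp n * Real.exp n * Real.exp (-3 * n) := by gcongr
    _ = Real.exp (-n) := by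
      rw [← Real.exp_add, ← Real.exp_add]
      ring_nf

end

end Pool.Agent.W933.HC
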